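import Pool.Agent.R536.LQ.RedPoly

/-!
# Maximum pairwise stable matchings with lower quotas at most 2

Finding a pairwise stable matching of maximum size (Problem A) and finding a popular pairwise
stable matching of maximum size (Problem B) are both NP-hard on instances with lower quotas at most
`2`, even if all lower quotas are equal to `2`: the decision versions (is there one of size at
least `k`?) are NP-hard under polynomial-time many-one reductions.
-/

set_option autoImplicit false

namespace Pool.Agent.Results.MP_52010b_lc.LowerQuotaTwo

open Pool.Agent.NPC Pool.Agent.NPC.R536LQ

/-- NP-hardness of Problems A and B for instances all of whose lower quotas are in `[lo, 2]`, where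
`lo` is `0`, `1` or `2`. -/
theorem result (lo : ℕ) (hlo : lo ≤ 2) : NPHardP (ProblemA lo) ∧ NPHardP (ProblemB lo) :=
  ⟨hard_A hlo, hard_B hlo⟩

end Pool.Agent.Results.MP_52010b_lc.LowerQuotaTwo
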